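import Pool.Agent.Helper95.HS.Stmts
import Pool.Agent.Helper12.LN.MGX

/-! # Row MGY (copy 2, helper12): the sum of the Morawetz functions, powers of `d` -/

set_option autoImplicit false

namespace Pool.Agent.Helper12.HS

open MeasureTheory Filter Pool.Agent.Helper95.PW Pool.Agent.Helper95.LN Pool.Agent.Helper95.CF
open Pool.Agent.Helper95.PW.MGS74 Pool.Agent.Helper12.LN Pool.Agent.Helper95.HS

theorem mgy_pd (i : Fin 3) (f : R3 → ℝ) (hf : ContDiff ℝ (⊤ : ℕ∞) f) (c k : ℝ) :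
    pd i (fun y => c * f (k • y)) = fun y => (c * k) * pd i f (k • y) := by
  funext y
  unfold pd
  have h1 : HasFDerivAt f (fderiv ℝ f (k • y)) (k • y) :=
    ((hf.differentiable (by simp)) _).hasFDerivAt
  have h2 : HasFDerivAt (fun y : R3 => k • y) (k • ContinuousLinearMap.id ℝ R3) y :=
    (hasFDerivAt_id y).const_smul k
  have h3 := (h1.comp y h2).const_mul c
  have h4 : fderiv ℝ (fun y => c * f (k • y)) y =
      c • (fderiv ℝ f (k • y)).comp (k • ContinuousLinearMap.id ℝ R3) := h3.fderiv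
  rw [h4]
  simp only [ContinuousLinearMap.smul_apply, ContinuousLinearMap.comp_apply,
    ContinuousLinearMap.id_apply, map_smul, smul_eq_mul]
  ring

theorem mgy_pd2 (i l : Fin 3) (f : R3 → ℝ) (hf : ContDiff ℝ (⊤ : ℕ∞) f) (c k : ℝ) :
    pd i (pd l (fun y => c * f (k • y))) = fun y => (c * k * k) * pd i (pd l f) (k • y) := by
  rw [mgy_pd l f hf, mgy_pd i _ (pd_smooth l f hf)]

theorem mgy_lap (f : R3 → ℝ) (hf : ContDiff ℝ (⊤ : ℕ∞) f) (c k : ℝ) :
    lap (fun y => c * f (k • y)) = fun y => (c * k * k) * lap f (k • y) := by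
  funext y
  unfold lap
  rw [Finset.mul_sum]
  refine Finset.sum_congr rfl fun i _ => ?_
  rw [mgy_pd2 i i f hf]

theorem mgy_nr (k : ℝ) (hk : 0 ≤ k) (y : R3) : nr (k • y) = k * nr y := by
  unfold nr
  simp only [Pi.smul_apply, smul_eq_mul]
  have h : (k * y 0) ^ 2 + (k * y 1) ^ 2 + (k * y 2) ^ 2 =
      k ^ 2 * (y 0 ^ 2 + y 1 ^ 2 + y 2 ^ 2) := by ring
  rw [h, Real.sqrt_mul (sq_nonneg k), Real.sqrt_sq hk]

theorem mgy_mg (d s : ℝ) (hd : 0 < d) :
    mg d s = fun y => d * mg 1 (d⁻¹ * s) (d⁻¹ • y) := by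
  funext y
  unfold mg
  simp only [Pi.smul_apply, smul_eq_mul]
  have h1 : (d⁻¹ * y 0) ^ 2 + (d⁻¹ * y 1) ^ 2 + (d⁻¹ * y 2) ^ 2 + (d⁻¹ * s) ^ 2 =
      d⁻¹ ^ 2 * (y 0 ^ 2 + y 1 ^ 2 + y 2 ^ 2 + s ^ 2) := by ring
  have h2 : 2 * ((d⁻¹ * y 0) ^ 2 + (d⁻¹ * y 1) ^ 2 + (d⁻¹ * y 2) ^ 2) / 1 ^ 2 =
      2 * (y 0 ^ 2 + y 1 ^ 2 + y 2 ^ 2) / d ^ 2 := by
    field_simp
  rw [h1, h2, Real.sqrt_mul (sq_nonneg _), Real.sqrt_sq (inv_nonneg.2 hd.le)]
  have h3 : d * (d⁻¹ * √(y 0 ^ 2 + y 1 ^ 2 + y 2 ^ 2 + s ^ 2) *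
      Real.smoothTransition (2 - 2 * (y 0 ^ 2 + y 1 ^ 2 + y 2 ^ 2) / d ^ 2)) =
      (d * d⁻¹) * (√(y 0 ^ 2 + y 1 ^ 2 + y 2 ^ 2 + s ^ 2) *
      Real.smoothTransition (2 - 2 * (y 0 ^ 2 + y 1 ^ 2 + y 2 ^ 2) / d ^ 2)) := by ring
  rw [h3, mul_inv_cancel₀ hd.ne', one_mul]

theorem mgy_mor (d s : ℝ) (hd : 0 < d) (y : R3) (hs : 0 < s) :
    mor s y = d⁻¹ ^ 3 * mor (d⁻¹ * s) (d⁻¹ • y) := by
  unfold mor
  have hk : 0 < d⁻¹ := inv_pos.2 hd
  rw [mgy_nr _ hk.le]
  have hq : 0 < nr y ^ 2 + s ^ 2 := by positivity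
  have h1 : (d⁻¹ * nr y) ^ 2 + (d⁻¹ * s) ^ 2 = d⁻¹ ^ 2 * (nr y ^ 2 + s ^ 2) := by ring
  have h2 : (d⁻¹ ^ 2) ^ (7 / 2 : ℝ) = d⁻¹ ^ 7 := by
    rw [← Real.rpow_natCast (d⁻¹) 2, ← Real.rpow_mul hk.le, ← Real.rpow_natCast (d⁻¹) 7]
    norm_num
  rw [h1, Real.mul_rpow (by positivity) hq.le, h2]
  have h3 : (nr y ^ 2 + s ^ 2) ^ (7 / 2 : ℝ) ≠ 0 := (Real.rpow_pos_of_pos hq _).ne'
  have h4 : d⁻¹ ≠ 0 := hk.ne'
  generalize (nr y ^ 2 + s ^ 2) ^ (7 / 2 : ℝ) = w at h3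
  generalize d⁻¹ = k at h4
  field_simp

/-- the scaled properties of one function -/
theorem mgy_one (h1 : ST_MGB) : ∃ A : ℝ, 1 ≤ A ∧ ∀ d s : ℝ, 0 < d → 0 < s → s ≤ d →
    (∀ i y, |pd i (mg d s) y| ≤ A) ∧
    (∀ y, nr y ≠ 0 → |lap (mg d s) y| ≤ A * (if nr y < d then 1 / nr y else 0)) ∧
    (∀ (y : R3) (ξ : Fin 3 → ℝ),
      -(A / d * ∑ i, ξ i ^ 2) ≤ ∑ i, ∑ l, pd i (pd l (mg d s)) y * ξ i * ξ l) ∧
    (∀ y, mor s y ≤ -(1 / 2) * lap (lap (mg d s)) y +
      A / d ^ 3 * (if d / 2 ≤ nr y then d / nr y else 0)) := by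
  obtain ⟨A, hA, hF⟩ := h1 1 one_pos
  refine ⟨A, hA, ?_⟩
  intro d s hd hs hsd
  have hk : 0 < d⁻¹ := inv_pos.2 hd
  have hs1 : d⁻¹ * s ≤ 1 := by
    rw [inv_mul_le_iff₀ hd, mul_one]
    exact hsd
  have hf := hF (d⁻¹ * s) (mul_pos hk hs) hs1
  have hdk : d * d⁻¹ = 1 := mul_inv_cancel₀ hd.ne'
  have hmg := mgy_mg d s hd
  have e1 : ∀ i, pd i (mg d s) = fun y => pd i (mg 1 (d⁻¹ * s)) (d⁻¹ • y) := by
    intro i
    rw [hmg, mgy_pd i _ hf.sm]
    funext y
    rw [hdk, one_mul]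
  have e2 : ∀ i l, pd i (pd l (mg d s)) =
      fun y => d⁻¹ * pd i (pd l (mg 1 (d⁻¹ * s))) (d⁻¹ • y) := by
    intro i l
    rw [hmg, mgy_pd2 i l _ hf.sm]
    funext y
    rw [hdk, one_mul]
  have e3 : lap (mg d s) = fun y => d⁻¹ * lap (mg 1 (d⁻¹ * s)) (d⁻¹ • y) := by
    rw [hmg, mgy_lap _ hf.sm]
    funext y
    rw [hdk, one_mul]
  have e4 : lap (lap (mg d s)) =
      fun y => d⁻¹ ^ 3 * lap (lap (mg 1 (d⁻¹ * s))) (d⁻¹ • y) := by
    rw [e3, mgy_lap _ (lap_smooth _ hf.sm)]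
    funext y
    ring
  have hiff : ∀ y : R3, nr (d⁻¹ • y) < 1 ↔ nr y < d := by
    intro y
    rw [mgy_nr _ hk.le, inv_mul_lt_iff₀ hd, mul_one]
  have hinv : ∀ y : R3, 1 / nr (d⁻¹ • y) = d * (1 / nr y) := by
    intro y
    rw [mgy_nr _ hk.le, one_div, mul_inv, inv_inv, one_div]
  refine ⟨?_, ?_, ?_, ?_⟩
  · intro i y
    rw [e1 i]
    exact hf.d1 i _
  · intro y hy
    have hy' : nr (d⁻¹ • y) ≠ 0 := by
      rw [mgy_nr _ hk.le]
      exact mul_ne_zero hk.ne' hy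
    have h2 := hf.lp (d⁻¹ • y) hy'
    rw [e3]
    show |d⁻¹ * lap (mg 1 (d⁻¹ * s)) (d⁻¹ • y)| ≤ _
    rw [abs_mul, abs_of_pos hk]
    refine (mul_le_mul_of_nonneg_left h2 hk.le).trans (le_of_eq ?_)
    by_cases hlt : nr y < d
    · rw [if_pos hlt, if_pos ((hiff y).2 hlt), hinv]
      have : d⁻¹ * (A * (d * (1 / nr y))) = (d * d⁻¹) * (A * (1 / nr y)) := by ring
      rw [this, hdk, one_mul]
    · rw [if_neg hlt, if_neg (fun h => hlt ((hiff y).1 h))]
      ring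
  · intro y ξ
    have h2 := hf.hs (d⁻¹ • y) ξ
    have h3 : ∑ i, ∑ l, pd i (pd l (mg d s)) y * ξ i * ξ l =
        d⁻¹ * ∑ i, ∑ l, pd i (pd l (mg 1 (d⁻¹ * s))) (d⁻¹ • y) * ξ i * ξ l := by
      rw [Finset.mul_sum]
      refine Finset.sum_congr rfl fun i _ => ?_
      rw [Finset.mul_sum]
      refine Finset.sum_congr rfl fun l _ => ?_
      rw [e2 i l]
      ring
    rw [h3]
    refine le_trans (le_of_eq ?_) (mul_le_mul_of_nonneg_left h2 hk.le)
    rw [div_eq_mul_inv]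
    ring
  · intro y
    have h2 := hf.bi (d⁻¹ • y)
    rw [mgy_mor d s hd y hs, e4]
    show d⁻¹ ^ 3 * mor (d⁻¹ * s) (d⁻¹ • y) ≤
      -(1 / 2) * (d⁻¹ ^ 3 * lap (lap (mg 1 (d⁻¹ * s))) (d⁻¹ • y)) + _
    have h3 := mul_le_mul_of_nonneg_left h2 (pow_nonneg hk.le 3)
    refine h3.trans (le_of_eq ?_)
    have h4 : (if 1 / 2 ≤ nr (d⁻¹ • y) then 1 / nr (d⁻¹ • y) else 0) =
        (if d / 2 ≤ nr y then d / nr y else 0) := by
      have h5 : (1 / 2 ≤ nr (d⁻¹ • y)) ↔ d / 2 ≤ nr y := by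
        rw [mgy_nr _ hk.le]
        rw [← div_eq_inv_mul, le_div_iff₀ hd]
        constructor
        · intro h; linarith
        · intro h; linarith
      by_cases h6 : d / 2 ≤ nr y
      · rw [if_pos h6, if_pos (h5.2 h6), hinv]
        ring
      · rw [if_neg h6, if_neg (fun h => h6 (h5.1 h))]
    rw [h4]
    have h7 : A / d ^ 3 = A * d⁻¹ ^ 3 := by rw [div_eq_mul_inv, inv_pow]
    rw [h7]
    ring

theorem MGY (h1 : ST_MGB) (h2 : ST_PK4) (h3 : ST_INN2) : ST_MGY := by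
  obtain ⟨A, hA, hO⟩ := mgy_one h1
  obtain ⟨C, hC, hP⟩ := h2
  have hA0 : 0 ≤ A := by linarith
  refine ⟨2 * A + 15 / 2 * C, by linarith, ?_⟩
  intro M X d s hd1 hX hs hsd
  have hd : 0 < d := by linarith
  obtain ⟨A', hA', hF⟩ := h1 d hd
  have hf := hF s hs hsd
  obtain ⟨o1, o2, o3, o4⟩ := hO d s hd hs hsd
  have e0 : mG X d s = fun y => ∑ j, mg d s (y - X j) := rfl
  have e1 : ∀ i, pd i (mG X d s) = fun y => ∑ j, pd i (mg d s) (y - X j) := fun i => by
    rw [e0]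
    exact pd_sum X i _ hf.sm
  have e2 : ∀ i l, pd i (pd l (mG X d s)) = fun y => ∑ j, pd i (pd l (mg d s)) (y - X j) :=
    fun i l => by
      rw [e1 l]
      exact pd_sum X i _ (pd_smooth l _ hf.sm)
  have e3 : lap (mG X d s) = fun y => ∑ j, lap (mg d s) (y - X j) := by
    rw [e0]
    exact lap_sum X _ hf.sm
  have e4 : lap (lap (mG X d s)) = fun y => ∑ j, lap (lap (mg d s)) (y - X j) := by
    rw [e3]
    exact lap_sum X _ (lap_smooth _ hf.sm)
  refine ⟨?_, ?_, ?_, ?_, ?_, ?_, ?_, ?_⟩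
  · rw [e0]
    exact ContDiff.sum fun j _ => hf.sm.comp (contDiff_id.sub contDiff_const)
  · rw [e0]
    exact cs_sum X _ hf.cs
  · intro i y hy
    rw [e1 i]
    exact Finset.sum_eq_zero fun j _ => hf.outd i _ (hy j)
  · intro i y
    rw [e1 i]
    refine (one_term X d hd hX y (fun j => pd i (mg d s) (y - X j))
      (fun j hj => hf.outd i _ hj) (fun t => |t| ≤ A) (by rw [abs_zero]; exact hA0)
      (fun j => o1 i _)).trans ?_
    linarith
  · intro y hy
    rw [e3]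
    have h4 : |∑ j, lap (mg d s) (y - X j)| ≤ A * near1 X d y := by
      unfold near1
      rw [Finset.mul_sum]
      refine (Finset.abs_sum_le_sum_abs _ _).trans ?_
      apply Finset.sum_le_sum
      intro j _
      exact o2 _ (hy j)
    have h5 : 0 ≤ near1 X d y := by
      unfold near1
      refine Finset.sum_nonneg fun j _ => ?_
      split_ifs
      · exact div_nonneg zero_le_one (nr_nonneg _)
      · exact le_rfl
    refine h4.trans (mul_le_mul_of_nonneg_right ?_ h5)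
    linarith
  · intro y ξ
    have hq : ∑ i, ∑ l, pd i (pd l (mG X d s)) y * ξ i * ξ l =
        ∑ j, ∑ i, ∑ l, pd i (pd l (mg d s)) (y - X j) * ξ i * ξ l := by
      have h3 : ∀ i, ∑ l, pd i (pd l (mG X d s)) y * ξ i * ξ l =
          ∑ j, ∑ l, pd i (pd l (mg d s)) (y - X j) * ξ i * ξ l := by
        intro i
        have h4 : ∀ l, pd i (pd l (mG X d s)) y * ξ i * ξ l =
            ∑ j, pd i (pd l (mg d s)) (y - X j) * ξ i * ξ l := by
          intro l
          rw [e2 i l]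
          show (∑ j, pd i (pd l (mg d s)) (y - X j)) * ξ i * ξ l = _
          rw [Finset.sum_mul, Finset.sum_mul]
        rw [Finset.sum_congr rfl (fun l _ => h4 l)]
        exact Finset.sum_comm
      rw [Finset.sum_congr rfl (fun i _ => h3 i)]
      exact Finset.sum_comm
    rw [hq]
    have hs0 : 0 ≤ ∑ i, ξ i ^ 2 := Finset.sum_nonneg fun i _ => sq_nonneg _
    have h6 : -(A / d * ∑ i, ξ i ^ 2) ≤
        ∑ j, ∑ i, ∑ l, pd i (pd l (mg d s)) (y - X j) * ξ i * ξ l := by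
      refine one_term X d hd hX y
        (fun j => ∑ i, ∑ l, pd i (pd l (mg d s)) (y - X j) * ξ i * ξ l) ?_
        (fun t => -(A / d * ∑ i, ξ i ^ 2) ≤ t) ?_ (fun j => o3 _ ξ)
      · intro j hj
        apply Finset.sum_eq_zero
        intro i _
        apply Finset.sum_eq_zero
        intro l _
        rw [pd_zero d i _ (pd_smooth l _ hf.sm) (fun z hz => hf.outd l z hz) _ hj]
        ring
      · have : 0 ≤ A / d * ∑ i, ξ i ^ 2 := mul_nonneg (div_nonneg hA0 hd.le) hs0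
        linarith
    refine le_trans ?_ h6
    have h7 : A / d ≤ (2 * A + 15 / 2 * C) / d :=
      div_le_div_of_nonneg_right (by linarith) hd.le
    have h8 := mul_le_mul_of_nonneg_right h7 hs0
    linarith
  · intro j y hy
    have hjd : nr (y - X j) < d := by linarith
    have h4 : ∀ i, pd i (mG X d s) y = pd i (mg d s) (y - X j) := by
      intro i
      rw [e1 i]
      show ∑ k, pd i (mg d s) (y - X k) = _
      rw [Finset.sum_eq_single j]
      · intro k _ hk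
        apply hf.outd
        by_contra hlt
        exact hk (sep_one X d hd hX y k j (not_le.1 hlt) hjd)
      · intro h
        exact absurd (Finset.mem_univ _) h
    obtain ⟨i1, -, -⟩ := h3 d s (y - X j) hs hd hy
    have hr : 0 < Real.sqrt (nr (y - X j) ^ 2 + s ^ 2) := Real.sqrt_pos.2 (by positivity)
    have h5 : ∑ i, pd i (mG X d s) y * (y i - X j i) =
        nr (y - X j) ^ 2 / Real.sqrt (nr (y - X j) ^ 2 + s ^ 2) := by
      rw [nr_sq, Fin.sum_univ_three, h4, h4, h4, i1, i1, i1]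
      simp only [Pi.sub_apply]
      rw [nr_sq]
      simp only [Pi.sub_apply]
      ring
    rw [h5, div_le_iff₀ hr]
    have h6 : nr (y - X j) ≤ Real.sqrt (nr (y - X j) ^ 2 + s ^ 2) := by
      apply Real.le_sqrt_of_sq_le
      nlinarith [sq_nonneg s]
    have h7 := mul_le_mul_of_nonneg_left h6 (nr_nonneg (y - X j))
    calc nr (y - X j) ^ 2 = nr (y - X j) * nr (y - X j) := by ring
      _ ≤ _ := h7
  · intro y
    have hd3 : d ≤ d ^ 3 := by
      have h4 : d ^ 1 ≤ d ^ 3 := pow_le_pow_right₀ hd1 (by norm_num)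
      rwa [pow_one] at h4
    have hz : ∀ z, d ≤ nr z → lap (lap (mg d s)) z = 0 := by
      intro z hz
      exact mgx_lap_zero d _ (lap_smooth _ hf.sm)
        (fun w hw => mgx_lap_zero d _ hf.sm hf.out w hw) z hz
    have hterm : ∀ j, mor s (y - X j) ≤ -(1 / 2) * lap (lap (mg d s)) (y - X j) +
        (if nr (y - X j) < d then 2 * A / d ^ 3 else 0) +
        15 / 2 * d * (if d ≤ nr (y - X j) then 1 / nr (y - X j) ^ 4 else 0) := by
      intro j
      by_cases hj : nr (y - X j) < d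
      · rw [if_pos hj, if_neg (not_le.2 hj)]
        have h3 := o4 (y - X j)
        have h4 : A / d ^ 3 * (if d / 2 ≤ nr (y - X j) then d / nr (y - X j) else 0) ≤
            2 * A / d ^ 3 := by
          have h9 : 0 ≤ A / d ^ 3 := by positivity
          by_cases h5 : d / 2 ≤ nr (y - X j)
          · rw [if_pos h5]
            have h0 : 0 < nr (y - X j) := lt_of_lt_of_le (by positivity) h5
            have h6 : d / nr (y - X j) ≤ 2 := by
              rw [div_le_iff₀ h0]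
              linarith
            calc A / d ^ 3 * (d / nr (y - X j)) ≤ A / d ^ 3 * 2 :=
                  mul_le_mul_of_nonneg_left h6 h9
              _ = 2 * A / d ^ 3 := by ring
          · rw [if_neg h5, mul_zero]
            positivity
        linarith
      · rw [if_neg hj, if_pos (not_lt.1 hj), hz _ (not_lt.1 hj)]
        have h3 := mgx_mor d s (y - X j) hs hsd (not_lt.1 hj)
        linarith
    have hnear : ∑ j, (if nr (y - X j) < d then 2 * A / d ^ 3 else 0) ≤ 2 * A / d ^ 3 := by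
      refine one_term X d hd hX y (fun j => if nr (y - X j) < d then 2 * A / d ^ 3 else 0)
        (fun j hj => if_neg (not_lt.2 hj)) (fun t => t ≤ 2 * A / d ^ 3) ?_ ?_
      · show (0 : ℝ) ≤ 2 * A / d ^ 3
        positivity
      · intro j
        show (if nr (y - X j) < d then 2 * A / d ^ 3 else 0) ≤ 2 * A / d ^ 3
        split_ifs
        · exact le_rfl
        · positivity
    have hfar : ∑ j, 15 / 2 * d * (if d ≤ nr (y - X j) then 1 / nr (y - X j) ^ 4 else 0) ≤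
        15 / 2 * d * (C / d ^ 4) := by
      rw [← Finset.mul_sum]
      exact mul_le_mul_of_nonneg_left (hP M X d y hd hX) (by positivity)
    have hsum := Finset.sum_le_sum (s := Finset.univ) fun j _ => hterm j
    rw [Finset.sum_add_distrib, Finset.sum_add_distrib, ← Finset.mul_sum] at hsum
    have g1 : 2 * A / d ^ 3 ≤ 2 * A / d :=
      div_le_div_of_nonneg_left (by positivity) hd hd3
    have g2 : 15 / 2 * d * (C / d ^ 4) ≤ 15 / 2 * C / d := by
      have : 15 / 2 * d * (C / d ^ 4) = 15 / 2 * C / d ^ 3 := by field_simp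
      rw [this]
      exact div_le_div_of_nonneg_left (by positivity) hd hd3
    have g3 : (2 * A + 15 / 2 * C) / d = 2 * A / d + 15 / 2 * C / d := by
      rw [add_div]
    rw [e4, g3]
    show ∑ j, mor s (y - X j) ≤ -(1 / 2) * (∑ j, lap (lap (mg d s)) (y - X j)) +
      (2 * A / d + 15 / 2 * C / d)
    linarith

end Pool.Agent.Helper12.HS
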